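import Mathlib
import Pool.Agent.MP_57347c_gt.h92.Force

/-! A transitive model of ZFC containing a normal counterexample. -/

namespace Pool.Agent.Results.MP_57347c_gt.ConsistentNo

open Pool.Agent.ZF92 Pool.Agent.MP_57347c_gt.H92

theorem result : ∃ M : Set ZFSet.{0}, ZFC M ∧ ∃ X ∈ M, ∃ T ∈ M,
    RegularSp M X T ∧ IsNormal X T ∧ ParaLindelof M X T ∧ HasBCO M X T ∧
      ¬ HasSigmaLocCountableBase M X T := by
  obtain ⟨M, hM, T, _, _, N, hN⟩ := exists_navy
  exact ⟨M, hM.out, _, un_mem, (Nv.typed hN).coded⟩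

end Pool.Agent.Results.MP_57347c_gt.ConsistentNo
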