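import Pool.Agent.PL50.Space

/-! A ZFC example of a regular para-Lindelof space with a base of countable order and
without a sigma-locally countable base. -/

open Topology

namespace Pool.Agent.Results.MP_57347c_gt.ZFCCounterexample

open Pool.Agent

theorem result :
    ∃ (X : Type) (_ : TopologicalSpace X), T3Space X ∧
      (∀ 𝒰 : Set (Set X), (∀ u ∈ 𝒰, IsOpen u) → ⋃₀ 𝒰 = Set.univ →
        ∃ 𝒱 : Set (Set X), (∀ v ∈ 𝒱, IsOpen v) ∧ ⋃₀ 𝒱 = Set.univ ∧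
          (∀ v ∈ 𝒱, ∃ u ∈ 𝒰, v ⊆ u) ∧
          ∀ x : X, ∃ n ∈ 𝓝 x, {v ∈ 𝒱 | (v ∩ n).Nonempty}.Countable) ∧
      (∃ 𝓑 : Set (Set X), TopologicalSpace.IsTopologicalBasis 𝓑 ∧
        ∀ (x : X) (b : ℕ → Set X), (∀ n, b n ∈ 𝓑) → (∀ n, x ∈ b n) →
          (∀ n, b (n + 1) ⊂ b n) → ∀ s ∈ 𝓝 x, ∃ n, b n ⊆ s) ∧
      ¬ ∃ 𝓑 : Set (Set X), TopologicalSpace.IsTopologicalBasis 𝓑 ∧
        ∃ f : ℕ → Set (Set X), 𝓑 = ⋃ n, f n ∧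
          ∀ (n : ℕ) (x : X), ∃ u ∈ 𝓝 x, {v ∈ f n | (v ∩ u).Nonempty}.Countable := by
  haveI : Nonempty PL50.W₁ := (PL50.W₁_bdd ∅ Set.countable_empty).elim fun b _ => ⟨b⟩
  letI : OrderBot PL50.W₁ := WellFoundedLT.toOrderBot _
  refine ⟨PL50.Pt PL50.W₁, inferInstance, inferInstance, PL50.Pt.paraLindelof,
    ⟨_, PL50.Pt.basis, PL50.Pt.bco⟩, ?_⟩
  rintro ⟨𝓑, hB, f, hf, hl⟩
  exact PL50.Pt.no_base PL50.W₁_bdd 𝓑 hB f hf hl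

end Pool.Agent.Results.MP_57347c_gt.ZFCCounterexample
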